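import Pool.Agent.MWHP.StmtsN

/-!
# MWHP row DGC (helper43): the law with `mu`
-/

set_option autoImplicit false

namespace Pool.Agent.MWHP.H43

open Pool.Agent.Helper14_MV Pool.Agent.Helper2_MV Pool.Agent.MVO Pool.Agent.MWL Pool.Agent.MWS
open Pool.Agent.MWA

theorem ofList_rep (m : ℕ) : (FreeMonoid.ofList (List.replicate m 0) : Word) = lx ^ m := by
  induction m with
  | zero => rfl
  | succ m ih =>
    rw [List.replicate_succ, FreeMonoid.ofList_cons, ih, pow_succ']
    rfl

theorem rtr {θ : FIC} {a b c : List ℕ} (h : RR θ a b) (h' : RR θ b c) : RR θ a c :=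
  θ.trans h h'

/-- powers: `x^p ~ x^q` for `2 ≤ p, q`, `p ≡ q` modulo `n` -/
theorem pw0 {n : ℕ} {β : FIC} (h : RR β [0, 0] (List.replicate (n + 2) 0)) (p : ℕ) (hp : 2 ≤ p) :
    RR β (List.replicate p 0) (List.replicate (p + n) 0) := by
  have h1 := h.append (RR.refl (β := β) (List.replicate (p - 2) 0))
  have e1 : [0, 0] ++ List.replicate (p - 2) 0 = List.replicate p 0 := by
    change List.replicate 2 0 ++ List.replicate (p - 2) 0 = _
    rw [← List.replicate_add]
    congr 1
    omega
  have e2 : List.replicate (n + 2) 0 ++ List.replicate (p - 2) 0 = List.replicate (p + n) 0 := by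
    rw [← List.replicate_add]
    congr 1
    omega
  rw [e1, e2] at h1
  exact h1

theorem pw1 {n : ℕ} {β : FIC} (h : RR β [0, 0] (List.replicate (n + 2) 0)) (p : ℕ) (hp : 2 ≤ p)
    (m : ℕ) : RR β (List.replicate p 0) (List.replicate (p + n * m) 0) := by
  induction m with
  | zero => exact RR.refl _
  | succ m ih =>
    have h1 := pw0 h (p + n * m) (by omega)
    have e : p + n * m + n = p + n * (m + 1) := by ring
    rw [e] at h1
    exact rtr ih h1

theorem flat_rep (c p : ℕ) :
    (List.replicate p 0).flatMap (fun _ => [c]) = List.replicate p c := by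
  induction p with
  | zero => rfl
  | succ p ih =>
    rw [List.replicate_succ, List.flatMap_cons, ih, List.replicate_succ]
    rfl

theorem ren {θ : FIC} {p q : ℕ} (h : RR θ (List.replicate p 0) (List.replicate q 0)) (c : ℕ) :
    RR θ (List.replicate p c) (List.replicate q c) := by
  have h1 := h.sub (fun _ => [c])
  rwa [flat_rep, flat_rep] at h1

theorem one_main (hCmn : CmnStmt) (hMux : MuxStmt) (hMuy : MuyStmt) (n : ℕ) (β : FIC)
    (hn : 1 ≤ n) (hap : RR β [0, 0] (List.replicate (n + 2) 0)) (ρ σ : FIC) (hβρ : β ≤ ρ) (hρ : ¬ NC2 ρ) (u v : List ℕ)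
    (hs : RR (FIC.sup ρ σ) u v) (hm : RR mu u v) :
    RR (FIC.sup (FIC.inf ρ mu) (FIC.inf σ mu)) u v := by
  set κ := FIC.sup (FIC.inf ρ mu) (FIC.inf σ mu) with hκ
  have kl : FIC.inf ρ mu ≤ κ := FIC.le_sup_left _ _
  have kr : FIC.inf σ mu ≤ κ := FIC.le_sup_right _ _
  have ks : κ ≤ FIC.sup ρ σ := by
    apply FIC.sup_le
    · exact FIC.le_trans' (FIC.inf_le_left _ _) (FIC.le_sup_left _ _)
    · exact FIC.le_trans' (FIC.inf_le_left _ _) (FIC.le_sup_right _ _)
  have km : κ ≤ mu := FIC.sup_le (FIC.inf_le_right _ _) (FIC.inf_le_right _ _)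
  -- one letter
  have step : ∀ (u' : List ℕ) (c : ℕ), RR κ u u' → ∃ u'' : List ℕ, RR κ u u'' ∧
      (∀ d, d ≠ c → u''.count d = u'.count d) ∧
      RR ρ (List.replicate (u''.count c) 0) (List.replicate (v.count c) 0) := by
    intro u' c hu
    have hm' : RR mu u' v := rtr (RR.symm (km _ _ hu)) hm
    have hs' : RR (FIC.sup ρ σ) u' v := rtr (RR.symm (ks _ _ hu)) hs
    have hmin := hMux.2.2.2 u' v hm' c
    by_cases hq : v.count c ≤ 1
    · refine ⟨u', hu, fun _ _ => rfl, ?_⟩
      have : u'.count c = v.count c := by omega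
      rw [this]
      exact RR.refl _
    · have hp2 : 2 ≤ u'.count c := by omega
      have hq2 : 2 ≤ v.count c := by omega
      set p := u'.count c with hp
      set q := v.count c with hqd
      obtain ⟨N, hN⟩ : ∃ N, N + p = 2 * n * p := by
        have hn := hn
        have : p ≤ 2 * n * p := by nlinarith
        exact ⟨2 * n * p - p, by omega⟩
      have hch := Helper4_MV.one_chain (i := c) hs'
      have hch' : Relation.ReflTransGen
          (fun a b => (Helper4_MV.nc ρ).r a b ∨ (Helper4_MV.nc σ).r a b) p q := hch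
      have hpq : RR κ (u' ++ List.replicate (N + p) c) (u' ++ List.replicate (N + q) c) := by
        have key : ∀ a b : ℕ, Relation.ReflTransGen
            (fun a b => (Helper4_MV.nc ρ).r a b ∨ (Helper4_MV.nc σ).r a b) a b →
            RR κ (u' ++ List.replicate (N + a) c) (u' ++ List.replicate (N + b) c) := by
          intro a b hab
          induction hab with
          | refl => exact RR.refl _
          | @tail b d _ hbd ih =>
            refine rtr ih ?_
            have hmu : RR mu (u' ++ List.replicate (N + b) c) (u' ++ List.replicate (N + d) c) :=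
              rtr (RR.symm (hMuy u' c (N + b) hp2)) (hMuy u' c (N + d) hp2)
            have gen : ∀ θ : FIC, θ.r (lx ^ b) (lx ^ d) →
                RR θ (u' ++ List.replicate (N + b) c) (u' ++ List.replicate (N + d) c) := by
              intro θ hθ
              have h1 : RR θ (List.replicate b 0) (List.replicate d 0) := by
                unfold RR
                rw [ofList_rep, ofList_rep]
                exact hθ
              have h2 := ren h1 c
              have h3 := (RR.refl (β := θ) (u' ++ List.replicate N c)).append h2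
              rwa [List.append_assoc, List.append_assoc, ← List.replicate_add,
                ← List.replicate_add] at h3
            rcases hbd with hbd | hbd
            · exact kl _ _ ⟨gen ρ hbd, hmu⟩
            · exact kr _ _ ⟨gen σ hbd, hmu⟩
        exact key p q hch'
      have hcnt : ∀ (m d : ℕ), (u' ++ List.replicate m c).count d =
          if d = c then u'.count d + m else u'.count d := by
        intro m d
        rw [List.count_append, List.count_replicate]
        by_cases hd : d = c
        · subst hd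
          simp
        · have : ¬ c = d := fun h => hd h.symm
          simp [hd, this]
      have h0 : RR κ u' (u' ++ List.replicate (N + p) c) := by
        refine kl _ _ ⟨?_, hMuy u' c (N + p) hp2⟩
        refine hCmn ρ hρ _ _ ?_
        intro d
        rw [hcnt]
        by_cases hd : d = c
        · subst hd
          rw [if_pos rfl, hN]
          have h1 := pw1 hap p hp2 (2 * p)
          have e : p + n * (2 * p) = u'.count d + 2 * n * p := by
            rw [← hp]; ring
          rw [e] at h1
          exact hβρ _ _ h1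
        · rw [if_neg hd]
          exact RR.refl _
      refine ⟨u' ++ List.replicate (N + q) c, rtr hu (rtr h0 hpq), ?_, ?_⟩
      · intro d hd
        rw [hcnt, if_neg hd]
      · rw [hcnt, if_pos rfl]
        have h1 := pw1 hap q hq2 (2 * p)
        have e : q + n * (2 * p) = u'.count c + (N + q) := by
          rw [← hp]
          have : n * (2 * p) = 2 * n * p := by ring
          omega
        rw [e] at h1
        exact RR.symm (hβρ _ _ h1)
  -- all letters
  have all : ∀ L : List ℕ, ∃ u' : List ℕ, RR κ u u' ∧
      (∀ d, d ∉ L → u'.count d = u.count d) ∧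
      ∀ d ∈ L, RR ρ (List.replicate (u'.count d) 0) (List.replicate (v.count d) 0) := by
    intro L
    induction L with
    | nil => exact ⟨u, RR.refl _, fun _ _ => rfl, fun d hd => by simp at hd⟩
    | cons c L ih =>
      obtain ⟨u', h1, h2, h3⟩ := ih
      obtain ⟨u'', k1, k2, k3⟩ := step u' c h1
      refine ⟨u'', k1, ?_, ?_⟩
      · intro d hd
        rw [List.mem_cons, not_or] at hd
        rw [k2 d hd.1, h2 d hd.2]
      · intro d hd
        by_cases hdc : d = c
        · subst hdc
          exact k3
        · rw [k2 d hdc]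
          exact h3 d ((List.mem_cons.1 hd).resolve_left hdc)
  obtain ⟨w, h1, h2, h3⟩ := all (u ++ v)
  have hρw : RR ρ w v := by
    refine hCmn ρ hρ _ _ ?_
    intro d
    by_cases hd : d ∈ u ++ v
    · exact h3 d hd
    · rw [h2 d hd]
      rw [List.mem_append, not_or] at hd
      rw [List.count_eq_zero.2 hd.1, List.count_eq_zero.2 hd.2]
      exact RR.refl _
  have hmw : RR mu w v := rtr (RR.symm (km _ _ h1)) hm
  exact rtr h1 (kl _ _ ⟨hρw, hmw⟩)

/-- **DGC** -/
theorem dgc (_hHap : HapStmt) (hCmn : CmnStmt) (hMux : MuxStmt) (hMuy : MuyStmt) : DgcStmt := by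
  intro n β hn hap hcap ρ σ hβρ hβσ u v hs hm
  by_cases hρ : NC2 ρ
  · by_cases hσ : NC2 σ
    · have h1 : ρ ≤ mu := hMux.2.1 β ρ hcap hβρ hρ
      have h2 : σ ≤ mu := hMux.2.1 β σ hcap hβσ hσ
      have h3 : FIC.sup ρ σ ≤ FIC.sup (FIC.inf ρ mu) (FIC.inf σ mu) := by
        apply FIC.sup_le
        · exact FIC.le_trans' (FIC.le_inf (FIC.le_refl' _) h1) (FIC.le_sup_left _ _)
        · exact FIC.le_trans' (FIC.le_inf (FIC.le_refl' _) h2) (FIC.le_sup_right _ _)
      exact h3 _ _ hs
    · have h3 : FIC.sup ρ σ ≤ FIC.sup σ ρ :=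
        FIC.sup_le (FIC.le_sup_right _ _) (FIC.le_sup_left _ _)
      have h4 : FIC.sup (FIC.inf σ mu) (FIC.inf ρ mu) ≤ FIC.sup (FIC.inf ρ mu) (FIC.inf σ mu) :=
        FIC.sup_le (FIC.le_sup_right _ _) (FIC.le_sup_left _ _)
      exact h4 _ _ (one_main hCmn hMux hMuy n β hn hap σ ρ hβσ hσ u v (h3 _ _ hs) hm)
  · exact one_main hCmn hMux hMuy n β hn hap ρ σ hβρ hρ u v hs hm

end Pool.Agent.MWHP.H43
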